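import Mathlib
import Pool.Agent.MP932050.Main

set_option autoImplicit false

namespace Pool.Agent.Results.MP_932050_co.LinearBound

open Filter Topology

/-- `U` and `V` are equi-isoclinic with angle `α`: the orthogonal projection of every unit vector
`u ∈ U` onto `V` has norm `α`. -/
def EquiIsoclinic {d : ℕ} (α : ℝ) (U V : Submodule ℝ (EuclideanSpace ℝ (Fin d))) : Prop :=
  ∀ u ∈ U, ‖u‖ = 1 → ‖V.starProjection u‖ = α

/-- `s` is a set of `k`-dimensional subspaces of `ℝ^d`, every two of which are equi-isoclinic with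
angle `α`. -/
def IsFamily (k d : ℕ) (α : ℝ) (s : Set (Submodule ℝ (EuclideanSpace ℝ (Fin d)))) : Prop :=
  (∀ U ∈ s, Module.finrank ℝ U = k) ∧ ∀ U ∈ s, ∀ V ∈ s, U ≠ V → EquiIsoclinic α U V

/-- `N_α^k(d)`, as an extended natural number: the supremum of the numbers of elements of all sets
of `k`-dimensional subspaces of `ℝ^d` which are pairwise equi-isoclinic with angle `α`. -/
noncomputable def maxNumber (k d : ℕ) (α : ℝ) : ℕ∞ :=
  ⨆ (s : Set (Submodule ℝ (EuclideanSpace ℝ (Fin d)))) (_ : IsFamily k d α s), s.encard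

/-- The bound for finite families. -/
theorem finite_bound (k : ℕ) (hk : 1 ≤ k) (α : ℝ) (h0 : 0 ≤ α) (h1 : α ≤ 1) :
    ∃ K : ℝ, 0 ≤ K ∧ ∀ (d : ℕ) (s : Finset (Submodule ℝ (EuclideanSpace ℝ (Fin d)))),
      IsFamily k d α (s : Set (Submodule ℝ (EuclideanSpace ℝ (Fin d)))) →
      (s.card : ℝ) ≤ 36 * d + K := by
  rcases h0.eq_or_lt with h0 | h0
  · subst h0
    refine ⟨0, le_rfl, ?_⟩
    intro d s hs
    obtain ⟨P, lam, H⟩ := EIS.exists_hyp s (fun U hU => hs.1 U hU)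
      (fun U hU V hV hne => hs.2 U hU V hV hne)
    have := EIS.matrix_zero k hk _ _ P lam H
    simp only [Fintype.card_coe, Fintype.card_fin] at this
    have hd : (0 : ℝ) ≤ d := by positivity
    linarith
  · rcases h1.eq_or_lt with h1 | h1
    · subst h1
      refine ⟨1, by norm_num, ?_⟩
      intro d s hs
      have hc : s.card ≤ 1 := by
        rw [Finset.card_le_one]
        intro U hU V hV
        by_contra hne
        have h2 := hs.2 U hU V hV hne
        have hle : U ≤ V := by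
          intro x hx
          by_cases hx0 : x = 0
          · rw [hx0]; exact V.zero_mem
          · have hxn : ‖x‖ ≠ 0 := norm_ne_zero_iff.mpr hx0
            have h3 := h2 ((‖x‖)⁻¹ • x) (U.smul_mem _ hx) (by
              rw [norm_smul, norm_inv, norm_norm]
              exact inv_mul_cancel₀ hxn)
            rw [Submodule.mem_iff_norm_starProjection]
            rw [map_smul, norm_smul, norm_inv, norm_norm] at h3
            field_simp at h3
            exact h3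
        exact hne (Submodule.eq_of_le_of_finrank_eq hle ((hs.1 U hU).trans (hs.1 V hV).symm))
      have hc' : (s.card : ℝ) ≤ 1 := by exact_mod_cast hc
      have hd : (0 : ℝ) ≤ d := by positivity
      linarith
    · obtain ⟨K, hK⟩ := EIS.matrix_main k hk α h0 h1
      refine ⟨max K 0, le_max_right _ _, ?_⟩
      intro d s hs
      obtain ⟨P, lam, H⟩ := EIS.exists_hyp s (fun U hU => hs.1 U hU)
        (fun U hU V hV hne => hs.2 U hU V hV hne)
      have := hK _ _ P lam H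
      simp only [Fintype.card_coe, Fintype.card_fin] at this
      have := le_max_left K 0
      linarith

/-- The absolute bound `N_α^k(d) ≤ 36 d + K`. -/
theorem main_bound (k : ℕ) (hk : 1 ≤ k) (α : ℝ) (h0 : 0 ≤ α) (h1 : α ≤ 1) :
    ∃ K : ℝ, 0 ≤ K ∧ ∀ d : ℕ, ∃ N : ℕ, maxNumber k d α = N ∧ (N : ℝ) ≤ 36 * d + K := by
  obtain ⟨K, hK0, hK⟩ := finite_bound k hk α h0 h1
  refine ⟨K, hK0, ?_⟩
  intro d
  have hpos : (0 : ℝ) ≤ 36 * d + K := by positivity
  have hle : maxNumber k d α ≤ ((⌊36 * (d : ℝ) + K⌋₊ : ℕ) : ℕ∞) := by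
    unfold maxNumber
    refine iSup₂_le ?_
    intro s hs
    have hfin : ∀ t : Finset (Submodule ℝ (EuclideanSpace ℝ (Fin d))),
        (t : Set (Submodule ℝ (EuclideanSpace ℝ (Fin d)))) ⊆ s →
        t.card ≤ ⌊36 * (d : ℝ) + K⌋₊ := by
      intro t ht
      apply Nat.le_floor
      exact hK d t ⟨fun U hU => hs.1 U (ht hU), fun U hU V hV hne => hs.2 U (ht hU) V (ht hV) hne⟩
    by_cases hsf : s.Finite
    · rw [hsf.encard_eq_coe_toFinset_card]
      exact_mod_cast hfin hsf.toFinset (by simp)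
    · exfalso
      obtain ⟨t, ht, htc⟩ := Set.Infinite.exists_subset_card_eq hsf (⌊36 * (d : ℝ) + K⌋₊ + 1)
      have := hfin t ht
      omega
  have hne : maxNumber k d α ≠ ⊤ := ne_top_of_le_ne_top (ENat.natCast_ne_top _) hle
  obtain ⟨N, hN⟩ := ENat.ne_top_iff_exists.mp hne
  refine ⟨N, hN.symm, ?_⟩
  rw [← hN] at hle
  have hN2 : N ≤ ⌊36 * (d : ℝ) + K⌋₊ := by exact_mod_cast hle
  exact (Nat.le_floor_iff hpos).mp hN2

/-- Q1 and Q2 hold, with the absolute constant `36` in Q2. -/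
theorem result :
    -- Q1: `N_α^k(d) = O_{α,k}(d)`
    (∀ k : ℕ, 1 ≤ k → ∀ α : ℝ, 0 ≤ α → α ≤ 1 →
      ∃ C : ℝ, ∀ d : ℕ, k ≤ d → ∃ N : ℕ, maxNumber k d α = N ∧ (N : ℝ) ≤ C * d) ∧
    -- Q2: `N_α^k(d) ≤ C_k d + o_{α,k}(d)`
    (∀ k : ℕ, 1 ≤ k → ∃ C : ℝ, ∀ α : ℝ, 0 ≤ α → α ≤ 1 →
      ∃ f : ℕ → ℝ, Tendsto (fun d : ℕ => f d / d) atTop (𝓝 0) ∧
        ∀ d : ℕ, k ≤ d → ∃ N : ℕ, maxNumber k d α = N ∧ (N : ℝ) ≤ C * d + f d) ∧
    -- a stronger form: an absolute constant and an additive error that does not depend on `d`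
    (∀ k : ℕ, 1 ≤ k → ∀ α : ℝ, 0 ≤ α → α ≤ 1 →
      ∃ K : ℝ, ∀ d : ℕ, ∃ N : ℕ, maxNumber k d α = N ∧ (N : ℝ) ≤ 36 * d + K) := by
  refine ⟨?_, ?_, ?_⟩
  · intro k hk α h0 h1
    obtain ⟨K, hK0, hK⟩ := main_bound k hk α h0 h1
    refine ⟨36 + K, ?_⟩
    intro d hd
    obtain ⟨N, hN, hN2⟩ := hK d
    refine ⟨N, hN, hN2.trans ?_⟩
    have : (1 : ℝ) ≤ d := by exact_mod_cast hk.trans hd
    nlinarith
  · intro k hk
    refine ⟨36, ?_⟩
    intro α h0 h1
    obtain ⟨K, hK0, hK⟩ := main_bound k hk α h0 h1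
    refine ⟨fun _ => K, tendsto_const_div_atTop_nhds_zero_nat K, ?_⟩
    intro d _
    exact hK d
  · intro k hk α h0 h1
    obtain ⟨K, _, hK⟩ := main_bound k hk α h0 h1
    exact ⟨K, hK⟩

end Pool.Agent.Results.MP_932050_co.LinearBound
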